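import Pool.Agent.W558.WD.Stms
import Pool.Agent.W558.S2.Loc

set_option autoImplicit false

/-! Project WILD, part CP. -/

universe u

namespace Pool.Agent.W64.WD

open Pool.Agent.W558

section ring

variable {R : Type u} [CommRing R]

/-- an element which is locally zero is zero -/
lemma eq_zero_of_local (r : R) (h : ∀ m : Ideal R, m.IsMaximal → ∃ e, e ∉ m ∧ e * r = 0) :
    r = 0 := by
  let J : Ideal R :=
    { carrier := {a | a * r = 0}
      add_mem' := fun {a b} (ha : a * r = 0) (hb : b * r = 0) => by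
        show (a + b) * r = 0
        rw [add_mul, ha, hb, add_zero]
      zero_mem' := zero_mul r
      smul_mem' := fun c {a} (ha : a * r = 0) => by
        show (c * a) * r = 0
        rw [mul_assoc, ha, mul_zero] }
  by_contra hne
  have hJ : J ≠ ⊤ := by
    intro hJ
    have h1 : (1 : R) ∈ J := by rw [hJ]; trivial
    have h2 : (1 : R) * r = 0 := h1
    rw [one_mul] at h2
    exact hne h2
  obtain ⟨m, hm, hle⟩ := Ideal.exists_le_maximal J hJ
  obtain ⟨e, he, her⟩ := h m hm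
  exact he (hle her)

/-- smooth algebras are reduced -/
lemma reduced_of_smooth (k : Type u) [Field k] [Algebra k R] [Algebra.Smooth k R] {r : R} {n : ℕ}
    (hr : r ^ n = 0) : r = 0 := by
  refine eq_zero_of_local r fun m hm => ?_
  have := hm.isPrime
  obtain ⟨P, hP, hPm⟩ := Ideal.exists_minimalPrimes_le (I := (⊥ : Ideal R)) (J := m) bot_le
  have hPp : P.IsPrime := hP.1.1
  obtain ⟨e, he, h⟩ := Pool.Agent.W558.loc_main k R P m hP hm.isPrime hPm
  refine ⟨e, he, h r ?_⟩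
  exact hPp.mem_of_pow_mem n (by rw [hr]; exact P.zero_mem)

/-- nonzerodivisors of smooth algebras -/
lemma nzd_of_smooth (k : Type u) [Field k] [Algebra k R] [Algebra.Smooth k R] {a : R} (ha : ∀ m : Ideal R, m.IsMaximal → a ∈ m → ∀ e, e ∉ m → e * a ≠ 0)
    {r : R} (hr : a * r = 0) : r = 0 := by
  refine eq_zero_of_local r fun m hm => ?_
  have := hm.isPrime
  obtain ⟨P, hP, hPm⟩ := Ideal.exists_minimalPrimes_le (I := (⊥ : Ideal R)) (J := m) bot_le
  have hPp : P.IsPrime := hP.1.1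
  obtain ⟨e, he, h⟩ := Pool.Agent.W558.loc_main k R P m hP hm.isPrime hPm
  rcases hPp.mem_or_mem (x := a) (y := r) (by rw [hr]; exact P.zero_mem) with h1 | h1
  · exact absurd (h a h1) (ha m hm (hPm h1) e he)
  · exact ⟨e, he, h r h1⟩

lemma nzd_pow {a : R} (ha : ∀ r, a * r = 0 → r = 0) (n : ℕ) : ∀ r, a ^ n * r = 0 → r = 0 := by
  induction n with
  | zero => intro r hr; rwa [pow_zero, one_mul] at hr
  | succ n ih =>
    intro r hr
    rw [pow_succ, mul_assoc] at hr
    exact ha r (ih _ hr)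

lemma nzd_prod {I : Type} (s : Finset I) (f : I → R)
    (hf : ∀ j ∈ s, ∀ r, f j * r = 0 → r = 0) : ∀ r, (∏ j ∈ s, f j) * r = 0 → r = 0 := by
  classical
  induction s using Finset.induction_on with
  | empty => intro r hr; rwa [Finset.prod_empty, one_mul] at hr
  | insert a s ha ih =>
    intro r hr
    rw [Finset.prod_insert ha, mul_assoc] at hr
    exact ih (fun j hj => hf j (Finset.mem_insert_of_mem hj)) _
      (hf a (Finset.mem_insert_self _ _) _ hr)

end ring

section snc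

variable {k K : Type u} [Field k] [Field K] [Algebra k K] {B : Subalgebra k K} {I : Type}
  {x : I → K}

/-- divisors of simple normal crossings are smooth -/
lemma smooth_of_snc [Algebra.Smooth k B] (h : SNC B x) (i : I) (hi : x i ∈ B) :
    Algebra.Smooth k (B ⧸ Ideal.span {(⟨x i, hi⟩ : B)}) := by
  refine smooth_quot _ fun κ _ _ φ hφ => ?_
  obtain ⟨D, hD, -⟩ := h κ φ i hi hφ
  exact ⟨D, by rw [hD]; exact one_ne_zero⟩

/-- different divisors have no common component -/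
lemma nzd_of_snc [Algebra.Smooth k B] (h : SNC B x) {i j : I} (hij : j ≠ i) (hi : x i ∈ B)
    (hj : x j ∈ B) (r : B ⧸ Ideal.span {(⟨x i, hi⟩ : B)})
    (hr : Ideal.Quotient.mk _ (⟨x j, hj⟩ : B) * r = 0) : r = 0 := by
  have hsm := smooth_of_snc h i hi
  refine nzd_of_smooth k (a := Ideal.Quotient.mk _ (⟨x j, hj⟩ : B)) ?_ hr
  intro m hm hjm e he hej
  let _ : Field ((B ⧸ Ideal.span {(⟨x i, hi⟩ : B)}) ⧸ m) := Ideal.Quotient.field m
  let φ : B →ₐ[k] ((B ⧸ Ideal.span {(⟨x i, hi⟩ : B)}) ⧸ m) :=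
    (Ideal.Quotient.mkₐ k m).comp (Ideal.Quotient.mkₐ k _)
  have hφ : ∀ b : B, φ b = Ideal.Quotient.mk m (Ideal.Quotient.mk _ b) := fun b => rfl
  have hφi : φ ⟨x i, hi⟩ = 0 := by
    rw [hφ, Ideal.Quotient.eq_zero_iff_mem.2 (Ideal.mem_span_singleton_self _), map_zero]
  have hφj : φ ⟨x j, hj⟩ = 0 := by
    rw [hφ, Ideal.Quotient.eq_zero_iff_mem.2 hjm]
  obtain ⟨D, hD, hD'⟩ := h _ φ j hj hφj
  have hDi : D.D ⟨x i, hi⟩ = 0 := hD' i hi hij.symm hφi
  obtain ⟨e', rfl⟩ := Ideal.Quotient.mk_surjective e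
  rw [← map_mul, Ideal.Quotient.eq_zero_iff_mem] at hej
  have h1 := D.span_singleton hφi hDi hej
  rw [D.leib, hD, hφj, mul_one, zero_mul, add_zero, hφ] at h1
  exact he (Ideal.Quotient.eq_zero_iff_mem.1 h1)

lemma zpow_mem {a : K} (ha : a ∈ B) (ha' : a⁻¹ ∈ B) (n : ℤ) : a ^ n ∈ B := by
  cases n with
  | ofNat n => rw [Int.ofNat_eq_natCast, zpow_natCast]; exact B.pow_mem ha n
  | negSucc n => rw [zpow_negSucc, ← inv_pow]; exact B.pow_mem ha' _

end snc

theorem main : WD_cp.{u} := by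
  classical
  intro p hp k N _ _ _ _ _ T I _ M F Q y h c μ hPS i hi t t'
  have hcN : CharP N p := charP_of_injective_algebraMap (algebraMap k N).injective p
  have := M.sm t
  set ρ : N := M.H t' / M.H t with hρ
  have hρ0 : ρ ≠ 0 := div_ne_zero (M.H0 t') (M.H0 t)
  have hρA : ρ ∈ M.A t := M.rt t t'
  set B : Subalgebra k N := adj (M.A t) ρ⁻¹ with hB
  have hsm : Algebra.Smooth k B := smooth_adj_inv hρA hρ0
  have hAB : M.A t ≤ B := le_adj _ _
  have hAB' : M.A t' ≤ B := fun f hf => by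
    obtain ⟨n, hn⟩ := M.gl t t' f hf
    exact (mem_adj_inv hρA hρ0).2 ⟨n, by rw [mul_comm]; exact hn⟩
  have hsnc : SNC B (M.x t) := (M.snc t).loc (M.xA t) hρA hρ0
  have hx0 : ∀ j, M.x t j ≠ 0 := M.x0 t
  have hx0' : ∀ j, M.x t' j ≠ 0 := M.x0 t'
  have hxB : ∀ j, M.x t j ∈ B := fun j => hAB (M.xA t j)
  -- the units
  let ε : I → N := fun j => M.x t' j / M.x t j
  have hε0 : ∀ j, ε j ≠ 0 := fun j => div_ne_zero (hx0' j) (hx0 j)
  have hεB : ∀ j, ε j ∈ B := fun j => by
    obtain ⟨n, hn⟩ := M.gi t t' j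
    exact (mem_adj_inv hρA hρ0).2 ⟨n, by rw [mul_comm]; exact hn⟩
  have hεB' : ∀ j, (ε j)⁻¹ ∈ B := fun j => by
    obtain ⟨n, hn⟩ := M.gi t' t j
    have h1 : (ε j)⁻¹ = ρ ^ n * ((M.H t / M.H t') ^ n * (M.x t j / M.x t' j)) := by
      have e1 : M.H t / M.H t' = ρ⁻¹ := by rw [hρ, inv_div]
      rw [e1, ← mul_assoc, ← mul_pow, mul_inv_cancel₀ hρ0, one_pow, one_mul]
      exact inv_div _ _
    rw [h1]
    exact B.mul_mem (B.pow_mem (hAB hρA) n) (hAB' hn)
  have hxε : ∀ j, M.x t' j = M.x t j * ε j := fun j => by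
    show M.x t' j = M.x t j * (M.x t' j / M.x t j)
    have := hx0 j
    field_simp
  set E : N := ∏ j, ε j ^ μ j with hE
  set G : N := ∏ j, ε j ^ c j with hG
  set X : N := ∏ j, M.x t j ^ c j with hX
  set U : N := ∏ j, M.x t j ^ μ j with hU
  have hEB : E ∈ B := B.prod_mem fun j _ => zpow_mem (hεB j) (hεB' j) _
  have hGB : G ∈ B := B.prod_mem fun j _ => zpow_mem (hεB j) (hεB' j) _
  have hEB' : E⁻¹ ∈ B := by
    rw [hE, ← Finset.prod_inv_distrib]
    refine B.prod_mem fun j _ => ?_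
    rw [← zpow_neg]
    exact zpow_mem (hεB j) (hεB' j) _
  have hE0 : E ≠ 0 := Finset.prod_ne_zero_iff.2 fun j _ => zpow_ne_zero _ (hε0 j)
  have hU0 : U ≠ 0 := Finset.prod_ne_zero_iff.2 fun j _ => zpow_ne_zero _ (hx0 j)
  have hyB : y t ∈ B := hAB (hPS.yA t)
  have hyB' : y t' ∈ B := hAB' (hPS.yA t')
  -- comparison of the two expressions
  have e1 : ∏ j, M.x t j ^ ((p : ℤ) * μ j) = U ^ p := by
    rw [hU, ← Finset.prod_pow]
    refine Finset.prod_congr rfl fun j _ => ?_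
    rw [← zpow_natCast, ← zpow_mul, mul_comm]
  have e2 : ∏ j, M.x t' j ^ ((p : ℤ) * μ j) = (U * E) ^ p := by
    rw [hU, hE, ← Finset.prod_mul_distrib, ← Finset.prod_pow]
    refine Finset.prod_congr rfl fun j _ => ?_
    rw [← mul_zpow, ← hxε, ← zpow_natCast, ← zpow_mul, mul_comm]
  have e3 : ∏ j, M.x t' j ^ c j = X * G := by
    rw [hX, hG, ← Finset.prod_mul_distrib]
    refine Finset.prod_congr rfl fun j _ => ?_
    rw [← mul_zpow, ← hxε]
  have e4 := hPS.eq t
  have e5 := hPS.eq t'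
  rw [e1, ← hX] at e4
  rw [e2, e3, e4, mul_pow, mul_assoc] at e5
  have e6 : y t ^ p - X * h t = E ^ p * (y t' ^ p - X * G * h t') :=
    mul_left_cancel₀ (pow_ne_zero p hU0) e5
  set κ : N := h t - E ^ p * G * h t' with hκ
  have hκB : κ ∈ B := B.sub_mem (hAB (hPS.hA t))
    (B.mul_mem (B.mul_mem (B.pow_mem hEB p) hGB) (hAB' (hPS.hA t')))
  have e7 : (y t - E * y t') ^ p = X * κ := by
    rw [sub_pow_char, mul_pow]
    linear_combination e6
  -- removal of the denominators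
  let d : I → ℕ := fun j => (-c j).toNat
  let e : I → ℕ := fun j => ((p : ℤ) * d j + c j - if j = i then 1 else 0).toNat
  have hp1 : 1 ≤ p := hp.out.one_lt.le
  have hde : ∀ j, (p : ℤ) * d j + c j = (if j = i then 1 else 0) + e j := by
    intro j
    have h0 : 0 ≤ (p : ℤ) * d j + c j - (if j = i then 1 else 0) := by
      rcases le_or_gt 0 (c j) with hc | hc
      · have hd : (d j : ℤ) = 0 := by
          show (((-c j).toNat : ℕ) : ℤ) = 0
          rw [Int.toNat_of_nonpos (by omega)]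
          rfl
        rw [hd, mul_zero, zero_add]
        split_ifs with hji
        · rw [hji]; omega
        · omega
      · have hd : (d j : ℤ) = -c j := Int.toNat_of_nonneg (by omega)
        have hji : j ≠ i := by
          rintro rfl
          omega
        rw [if_neg hji, hd]
        have hp1' : (1 : ℤ) ≤ p := by exact_mod_cast hp1
        nlinarith
    have h1 : (e j : ℤ) = (p : ℤ) * d j + c j - (if j = i then 1 else 0) :=
      Int.toNat_of_nonneg h0
    rw [h1]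
    ring
  set m : N := ∏ j, M.x t j ^ d j with hm
  set z : N := ∏ j, M.x t j ^ e j with hz
  have hmB : m ∈ B := B.prod_mem fun j _ => B.pow_mem (hxB j) _
  have hzB : z ∈ B := B.prod_mem fun j _ => B.pow_mem (hxB j) _
  have e8 : m ^ p * X = M.x t i * z := by
    have h1 : M.x t i = ∏ j, M.x t j ^ (if j = i then (1 : ℤ) else 0) := by
      rw [Finset.prod_eq_single i]
      · rw [if_pos rfl, zpow_one]
      · intro j _ hj
        rw [if_neg hj, zpow_zero]
      · intro hh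
        exact absurd (Finset.mem_univ i) hh
    conv_rhs => rw [h1]
    rw [hm, hX, hz, ← Finset.prod_pow, ← Finset.prod_mul_distrib, ← Finset.prod_mul_distrib]
    refine Finset.prod_congr rfl fun j _ => ?_
    rw [← zpow_natCast (M.x t j) (e j), ← zpow_add₀ (hx0 j), ← hde j, zpow_add₀ (hx0 j), ← pow_mul,
      ← zpow_natCast]
    congr 2
    push_cast
    ring
  -- the quotient
  have hwB : y t - E * y t' ∈ B := B.sub_mem hyB (B.mul_mem hEB hyB')
  let I0 : Ideal B := Ideal.span {(⟨M.x t i, hxB i⟩ : B)}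
  have hR : Algebra.Smooth k (B ⧸ I0) := smooth_of_snc hsnc i (hxB i)
  have h1 : (Ideal.Quotient.mk I0 (⟨m, hmB⟩ * ⟨y t - E * y t', hwB⟩ : B)) ^ p = 0 := by
    rw [← map_pow, Ideal.Quotient.eq_zero_iff_mem]
    refine Ideal.mem_span_singleton.2 ⟨⟨z * κ, B.mul_mem hzB hκB⟩, ?_⟩
    apply Subtype.ext
    show (m * (y t - E * y t')) ^ p = M.x t i * (z * κ)
    rw [mul_pow, e7, ← mul_assoc, e8, mul_assoc]
  have h2 := reduced_of_smooth k h1
  rw [map_mul] at h2
  have h3 : Ideal.Quotient.mk I0 (⟨m, hmB⟩ : B) =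
      ∏ j, Ideal.Quotient.mk I0 (⟨M.x t j, hxB j⟩ : B) ^ d j := by
    have h4 : (⟨m, hmB⟩ : B) = ∏ j, (⟨M.x t j, hxB j⟩ : B) ^ d j := by
      apply Subtype.ext
      simp [hm]
    rw [h4, map_prod]
    simp only [map_pow]
  rw [h3] at h2
  have h5 : Ideal.Quotient.mk I0 (⟨y t - E * y t', hwB⟩ : B) = 0 := by
    refine nzd_prod Finset.univ (fun j => Ideal.Quotient.mk I0 (⟨M.x t j, hxB j⟩ : B) ^ d j)
      (fun j _ => ?_) _ h2
    by_cases hji : j = i
    · have hd : d j = 0 := by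
        show (-c j).toNat = 0
        rw [hji]
        exact Int.toNat_of_nonpos (by omega)
      intro r hr
      simp only [hd, pow_zero, one_mul] at hr
      exact hr
    · exact nzd_pow (fun r hr => nzd_of_snc hsnc hji (hxB i) (hxB j) r hr) (d j)
  rw [Ideal.Quotient.eq_zero_iff_mem] at h5
  obtain ⟨⟨b, hb⟩, hbe⟩ := Ideal.mem_span_singleton.1 h5
  have h6 : y t - E * y t' = M.x t i * b := congrArg Subtype.val hbe
  -- conclusion
  obtain ⟨n1, hn1⟩ := (mem_adj_inv hρA hρ0).1 hEB'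
  obtain ⟨n2, hn2⟩ := (mem_adj_inv hρA hρ0).1 (B.neg_mem (B.mul_mem hEB' hb))
  refine ⟨n1 + n2, ρ ^ n2 * (E⁻¹ * ρ ^ n1), (M.A t).mul_mem ((M.A t).pow_mem hρA _) hn1,
    ρ ^ n1 * (-(E⁻¹ * b) * ρ ^ n2), (M.A t).mul_mem ((M.A t).pow_mem hρA _) hn2, ?_⟩
  have h7 : y t' = E⁻¹ * (y t - M.x t i * b) := by
    rw [← h6]
    field_simp
    ring
  rw [h7, pow_add]
  ring

end Pool.Agent.W64.WD
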